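import Mathlib

set_option autoImplicit false

/-!
# The value of monotonic sum-decompositions of weighted cut functions is not monotone

On seven vertices `0, ..., 6` let `{0, 1, 2}` be completely joined to each other and to the path
`3 - 4 - 5 - 6`, with weight `16` on every edge except weight `32` on the middle edge `4 - 5` of the
path.  The value of the weighted cut function is `200`.  Adding weight `4` on the pair `3 - 5` lowers
the value to `199`.
-/

namespace Pool.Agent.Results.MP_37da45_co.Counterexample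

section Definitions

variable {V : Type*} [Fintype V] [DecidableEq V]

/-- Submodularity of a set function. -/
def IsSubmodular (φ : Finset V → ℝ) : Prop :=
  ∀ X Y : Finset V, φ (X ∩ Y) + φ (X ∪ Y) ≤ φ X + φ Y

/-- `φ = φ₁ + φ₂` is a monotonic sum-decomposition: `φ₁` is increasing and submodular, `φ₂` is
decreasing and submodular, and both vanish on the empty set. -/
structure IsMonotonicSumDecomposition (φ φ₁ φ₂ : Finset V → ℝ) : Prop where
  sum_eq : ∀ X, φ X = φ₁ X + φ₂ X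
  increasing : ∀ X Y, X ⊆ Y → φ₁ X ≤ φ₁ Y
  submodular₁ : IsSubmodular φ₁
  decreasing : ∀ X Y, X ⊆ Y → φ₂ Y ≤ φ₂ X
  submodular₂ : IsSubmodular φ₂
  empty₁ : φ₁ ∅ = 0
  empty₂ : φ₂ ∅ = 0

/-- The set of all numbers `φ₁(V)`, for `φ = φ₁ + φ₂` a monotonic sum-decomposition.  Its least
element is `‖φ‖₊`. -/
def decompositionValues (φ : Finset V → ℝ) : Set ℝ :=
  {t | ∃ φ₁ φ₂ : Finset V → ℝ, IsMonotonicSumDecomposition φ φ₁ φ₂ ∧ φ₁ Finset.univ = t}

/-- The weighted cut function of the graph `G` with edge weights `w`: the total weight of the edges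
of `G` with exactly one endpoint in `X`. -/
def cutFunction (G : SimpleGraph V) [DecidableRel G.Adj] (w : Sym2 V → ℝ) (X : Finset V) : ℝ :=
  ∑ e ∈ G.edgeFinset with (∃ u v, e = s(u, v) ∧ u ∈ X ∧ v ∉ X), w e

end Definitions

/-! ### The weights -/

/-- The weight of the pair `i j`, where `c` is the weight given to the pair `3 5`. -/
def wt (c : ℕ) (i j : Fin 7) : ℕ :=
  if min i.val j.val ≤ 2 then 16
  else if min i.val j.val = 4 ∧ max i.val j.val = 5 then 32
  else if (min i.val j.val = 3 ∧ max i.val j.val = 4) ∨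
      (min i.val j.val = 5 ∧ max i.val j.val = 6) then 16
  else if min i.val j.val = 3 ∧ max i.val j.val = 5 then c
  else 0

/-- The weights as a function on unordered pairs. -/
def wn (c : ℕ) : Sym2 (Fin 7) → ℕ :=
  Sym2.lift ⟨wt c, fun i j => by unfold wt; rw [min_comm, max_comm]⟩

/-- Cut values with natural number weights. -/
def cutNatG {V : Type*} [Fintype V] [DecidableEq V] (G : SimpleGraph V) [DecidableRel G.Adj]
    (w : Sym2 V → ℕ) (X : Finset V) : ℕ :=
  ∑ e ∈ G.edgeFinset with (∃ u v, e = s(u, v) ∧ u ∈ X ∧ v ∉ X), w e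

/-- Cut values of the complete graph with the weights `wn c`. -/
def cutNat (c : ℕ) (X : Finset (Fin 7)) : ℕ := cutNatG ⊤ (wn c) X

lemma cut_castG {V : Type*} [Fintype V] [DecidableEq V] (G : SimpleGraph V) [DecidableRel G.Adj]
    (w : Sym2 V → ℕ) (X : Finset V) :
    cutFunction G (fun e => (w e : ℝ)) X = (cutNatG G w X : ℝ) := by
  unfold cutFunction cutNatG
  rw [Nat.cast_sum]

lemma cut_cast (c : ℕ) (X : Finset (Fin 7)) :
    cutFunction (⊤ : SimpleGraph (Fin 7)) (fun e => (wn c e : ℝ)) X = (cutNat c X : ℝ) :=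
  cut_castG _ _ _

/-! ### Coding subsets of `Fin 7` by numbers below `128` -/

/-- The subset of `Fin 7` coded by the binary digits of `m`. -/
def dec (m : ℕ) : Finset (Fin 7) := Finset.univ.filter fun i => m.testBit i.val = true

/-- The code of a subset. -/
def enc (X : Finset (Fin 7)) : ℕ := ∑ i ∈ X, 2 ^ i.val

lemma dec_inter (a b : ℕ) : dec a ∩ dec b = dec (a &&& b) := by
  ext i
  simp [dec, Nat.testBit_and]

lemma dec_union (a b : ℕ) : dec a ∪ dec b = dec (a ||| b) := by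
  ext i
  simp [dec, Nat.testBit_or]

lemma enc_lt : ∀ X : Finset (Fin 7), enc X < 128 := by decide +kernel

lemma dec_enc : ∀ X : Finset (Fin 7), dec (enc X) = X := by decide +kernel

lemma enc_dec : ∀ m < 128, enc (dec m) = m := by decide +kernel

lemma dec_zero : dec 0 = ∅ := by decide +kernel

lemma dec_full : dec 127 = Finset.univ := by decide +kernel

/-- Table lookup: the `m`-th digit of `T` in base `256`. -/
def tab (T m : ℕ) : ℕ := (T >>> (8 * m)) % 256


/-- Table of the cut values for `c = 0`. -/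
def C0 : ℕ := 264369316292305716141050886390288175656459006716109596202135682163680568921527135257058853546301967468507093899011432375823911158111035945310992135424293548855936097234912733841244620805073539600647197944260771423309505583467088564851806326499420191467438956104196170433448120088231105337296945100735143936

/-- Table of an optimal increasing part for `c = 0`. -/
def F0 : ℕ := 140995539989201247665043544357457443080458486928745736675390609241253591580026401646599440402286812093775128809912584184282680833548431863595116306098166366429057164500613166968363916797478579302704665304180813063738647045630526582719995105778459356574943727527179583219684646286227362646422277204147261431808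

lemma cutNat_eq0 : ∀ m < 128, cutNat 0 (dec m) = tab C0 m := by decide +kernel


/-- Table of the cut values for `c = 4`. -/
def C4 : ℕ := 264369316292305716293918557157346984751754502508102114861783148463240818043934631964674571305189857200847282791225009725717091777494157088095135124331108513164361641459238366738638178085141783344889252489000854173930503045406494356678015402876222616078581475556612498602444832253336000580573643789719068672

/-- Table of an optimal increasing part for `c = 4`. -/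
def F4 : ℕ := 140290562289255241426718326637848436658864488805638934393171968949868094462297397129664985704821141975782641948897117812717122052569505872701348695648037762539180881316833563049358479437013631346055122337665433861718981862973239016413166385754687849876749957121712355626557350475943128056106697054538124255232

lemma cutNat_eq4 : ∀ m < 128, cutNat 4 (dec m) = tab C4 m := by decide +kernel


/-- The conditions which certify that the table `F` is the increasing part of a monotonic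
sum-decomposition of the set function with table `C`. -/
def Certificate (C F : ℕ) : Prop :=
  ∀ a < 128, ∀ b < 128,
    tab F (a &&& b) + tab F (a ||| b) ≤ tab F a + tab F b ∧
    (tab F a + tab F b + (tab C (a &&& b) + tab C (a ||| b)) ≤
      tab C a + tab C b + (tab F (a &&& b) + tab F (a ||| b))) ∧
    tab F (a &&& b) ≤ tab F a ∧
    tab C a + tab F (a &&& b) ≤ tab C (a &&& b) + tab F a

instance (C F : ℕ) : Decidable (Certificate C F) := by unfold Certificate; infer_instance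

lemma certificate0 : Certificate C0 F0 := by decide +kernel

lemma certificate4 : Certificate C4 F4 := by decide +kernel

/-- A certificate yields a monotonic sum-decomposition. -/
lemma exists_decomposition (c C F t : ℕ) (hC : ∀ m < 128, cutNat c (dec m) = tab C m)
    (hcert : Certificate C F) (h0 : tab F 0 = 0) (h0' : tab C 0 = 0) (ht : tab F 127 = t) :
    (t : ℝ) ∈ decompositionValues
      (cutFunction (⊤ : SimpleGraph (Fin 7)) (fun e => (wn c e : ℝ))) := by
  refine ⟨fun X => (tab F (enc X) : ℝ), fun X => (cutNat c X : ℝ) - (tab F (enc X) : ℝ), ?_, ?_⟩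
  · have key : ∀ X Y : Finset (Fin 7), ∃ a b : ℕ, a < 128 ∧ b < 128 ∧ dec a = X ∧ dec b = Y ∧
        enc X = a ∧ enc Y = b ∧ enc (X ∩ Y) = a &&& b ∧ enc (X ∪ Y) = a ||| b ∧
        cutNat c X = tab C a ∧ cutNat c Y = tab C b ∧ cutNat c (X ∩ Y) = tab C (a &&& b) ∧
        cutNat c (X ∪ Y) = tab C (a ||| b) := by
      intro X Y
      have hX := enc_lt X
      have hY := enc_lt Y
      have hand : enc X &&& enc Y < 128 := lt_of_le_of_lt Nat.and_le_left hX
      have hor : enc X ||| enc Y < 128 := Nat.or_lt_two_pow (n := 7) hX hY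
      have hi : X ∩ Y = dec (enc X &&& enc Y) := by
        rw [← dec_inter, dec_enc, dec_enc]
      have hu : X ∪ Y = dec (enc X ||| enc Y) := by
        rw [← dec_union, dec_enc, dec_enc]
      refine ⟨enc X, enc Y, hX, hY, dec_enc X, dec_enc Y, rfl, rfl, ?_, ?_, ?_, ?_, ?_, ?_⟩
      · rw [hi, enc_dec _ hand]
      · rw [hu, enc_dec _ hor]
      · rw [← hC _ hX, dec_enc]
      · rw [← hC _ hY, dec_enc]
      · rw [← hC _ hand, hi]
      · rw [← hC _ hor, hu]
    constructor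
    · intro X
      rw [cut_cast]
      ring
    · intro X Y hXY
      obtain ⟨b, a, hb, ha, -, -, hX, hY, hi, -, -, -, -, -⟩ := key X Y
      obtain ⟨-, -, h3, -⟩ := hcert a ha b hb
      have : enc X = a &&& b := by
        rw [Nat.and_comm, ← hi, Finset.inter_eq_left.mpr hXY]
      rw [hY, this]
      exact_mod_cast h3
    · intro X Y
      obtain ⟨a, b, ha, hb, -, -, hX, hY, hi, hu, -, -, -, -⟩ := key X Y
      obtain ⟨h1, -, -, -⟩ := hcert a ha b hb
      beta_reduce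
      rw [hX, hY, hi, hu]
      exact_mod_cast h1
    · intro X Y hXY
      obtain ⟨b, a, hb, ha, -, -, hX, hY, hi, -, hcX, hcY, hci, -⟩ := key X Y
      obtain ⟨-, -, -, h4⟩ := hcert a ha b hb
      have hinter : X ∩ Y = X := Finset.inter_eq_left.mpr hXY
      have hcX' : cutNat c X = tab C (a &&& b) := by rw [Nat.and_comm, ← hci, hinter]
      have : enc X = a &&& b := by
        rw [Nat.and_comm, ← hi, hinter]
      rw [hY, this, hcX', hcY]
      have h4' : (tab C a : ℝ) + tab F (a &&& b) ≤ tab C (a &&& b) + tab F a := by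
        exact_mod_cast h4
      linarith
    · intro X Y
      obtain ⟨a, b, ha, hb, -, -, hX, hY, hi, hu, hcX, hcY, hci, hcu⟩ := key X Y
      obtain ⟨-, h2, -, -⟩ := hcert a ha b hb
      beta_reduce
      rw [hX, hY, hi, hu, hcX, hcY, hci, hcu]
      have h2' : (tab F a : ℝ) + tab F b + (tab C (a &&& b) + tab C (a ||| b)) ≤
          tab C a + tab C b + (tab F (a &&& b) + tab F (a ||| b)) := by
        exact_mod_cast h2
      linarith
    · have h : enc ∅ = 0 := by simp [enc]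
      rw [h, h0]
      simp
    · have h : enc ∅ = 0 := by simp [enc]
      have h' : cutNat c ∅ = 0 := by
        rw [← dec_zero, hC 0 (by norm_num), h0']
      rw [h, h0, h']
      simp
  · have h : enc Finset.univ = 127 := by decide +kernel
    beta_reduce
    rw [h, ht]

section LowerBound

variable {φ₁ φ₂ : Finset (Fin 7) → ℝ} {c C : ℕ}

lemma subm (h : IsSubmodular φ₁) (a b : ℕ) {x y : ℕ} (h1 : a &&& b = x) (h2 : a ||| b = y) :
    φ₁ (dec x) + φ₁ (dec y) ≤ φ₁ (dec a) + φ₁ (dec b) := by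
  have := h (dec a) (dec b)
  rwa [dec_inter, dec_union, h1, h2] at this

lemma subm' (hC : ∀ m < 128, cutNat c (dec m) = tab C m)
    (h : IsMonotonicSumDecomposition
      (cutFunction (⊤ : SimpleGraph (Fin 7)) (fun e => (wn c e : ℝ))) φ₁ φ₂)
    (a b : ℕ) {x y k : ℕ} (h1 : a &&& b = x) (h2 : a ||| b = y)
    (hk : (a < 128 ∧ b < 128 ∧ x < 128 ∧ y < 128) ∧
      tab C a + tab C b ≤ tab C x + tab C y + k) :
    φ₁ (dec a) + φ₁ (dec b) ≤ φ₁ (dec x) + φ₁ (dec y) + k := by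
  obtain ⟨⟨ha, hb, hx, hy⟩, hk⟩ := hk
  have hs := subm h.submodular₂ a b h1 h2
  have e : ∀ m < 128, φ₁ (dec m) + φ₂ (dec m) = tab C m := by
    intro m hm
    rw [← h.sum_eq, cut_cast, hC m hm]
  have e1 := e a ha
  have e2 := e b hb
  have e3 := e x hx
  have e4 := e y hy
  have hk' : (tab C a : ℝ) + tab C b ≤ tab C x + tab C y + k := by exact_mod_cast hk
  linarith

lemma single (hC : ∀ m < 128, cutNat c (dec m) = tab C m)
    (h : IsMonotonicSumDecomposition
      (cutFunction (⊤ : SimpleGraph (Fin 7)) (fun e => (wn c e : ℝ))) φ₁ φ₂)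
    (a : ℕ) {k : ℕ} (hk : a < 128 ∧ k ≤ tab C a) : (k : ℝ) ≤ φ₁ (dec a) := by
  have e1 : φ₁ (dec a) + φ₂ (dec a) = tab C a := by
    rw [← h.sum_eq, cut_cast, hC a hk.1]
  have e2 : φ₂ (dec a) ≤ 0 := by
    rw [← h.empty₂]
    exact h.decreasing _ _ (Finset.empty_subset _)
  have hk' : (k : ℝ) ≤ tab C a := by exact_mod_cast hk.2
  linarith

lemma top_le (h : IsMonotonicSumDecomposition
      (cutFunction (⊤ : SimpleGraph (Fin 7)) (fun e => (wn c e : ℝ))) φ₁ φ₂)
    (a : ℕ) : φ₁ (dec a) ≤ φ₁ (dec 127) := by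
  rw [dec_full]
  exact h.increasing _ _ (Finset.subset_univ _)

end LowerBound


set_option maxHeartbeats 4000000 in
lemma lower0 : (200 : ℝ) ∈ lowerBounds (decompositionValues
    (cutFunction (⊤ : SimpleGraph (Fin 7)) (fun e => (wn 0 e : ℝ)))) := by
  rintro t ⟨φ₁, φ₂, h, rfl⟩
  have z : φ₁ (dec 0) = 0 := by rw [dec_zero]; exact h.empty₁
  have h0 : φ₁ (dec 22) + φ₁ (dec 31) ≤ φ₁ (dec 23) + φ₁ (dec 30) :=
    subm h.submodular₁ 23 30 (by decide) (by decide)
  have h1 : φ₁ (dec 6) + φ₁ (dec 18) ≤ φ₁ (dec 2) + φ₁ (dec 22) + (32 : ℕ) :=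
    subm' cutNat_eq0 h 6 18 (by decide) (by decide) (by decide +kernel)
  have h2 : φ₁ (dec 62) + φ₁ (dec 127) ≤ φ₁ (dec 63) + φ₁ (dec 126) :=
    subm h.submodular₁ 63 126 (by decide) (by decide)
  have h3 : φ₁ (dec 30) + φ₁ (dec 78) ≤ φ₁ (dec 14) + φ₁ (dec 94) + (0 : ℕ) :=
    subm' cutNat_eq0 h 30 78 (by decide) (by decide) (by decide +kernel)
  have h4 : φ₁ (dec 10) + φ₁ (dec 66) ≤ φ₁ (dec 2) + φ₁ (dec 74) + (0 : ℕ) :=
    subm' cutNat_eq0 h 10 66 (by decide) (by decide) (by decide +kernel)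
  have h5 : φ₁ (dec 123) ≤ φ₁ (dec 127) := top_le h 123
  have h6 : φ₁ (dec 115) + φ₁ (dec 127) ≤ φ₁ (dec 119) + φ₁ (dec 123) :=
    subm h.submodular₁ 119 123 (by decide) (by decide)
  have h7 : φ₁ (dec 16) + φ₁ (dec 64) ≤ φ₁ (dec 0) + φ₁ (dec 80) + (0 : ℕ) :=
    subm' cutNat_eq0 h 16 64 (by decide) (by decide) (by decide +kernel)
  have h8 : ((96 : ℕ) : ℝ) ≤ φ₁ (dec 16) := single cutNat_eq0 h 16 (by decide +kernel)
  have h9 : φ₁ (dec 47) + φ₁ (dec 127) ≤ φ₁ (dec 63) + φ₁ (dec 111) :=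
    subm h.submodular₁ 63 111 (by decide) (by decide)
  have h10 : φ₁ (dec 23) + φ₁ (dec 95) ≤ φ₁ (dec 31) + φ₁ (dec 87) :=
    subm h.submodular₁ 31 87 (by decide) (by decide)
  have h11 : φ₁ (dec 74) + φ₁ (dec 79) ≤ φ₁ (dec 75) + φ₁ (dec 78) :=
    subm h.submodular₁ 75 78 (by decide) (by decide)
  have h12 : φ₁ (dec 3) + φ₁ (dec 75) ≤ φ₁ (dec 11) + φ₁ (dec 67) :=
    subm h.submodular₁ 11 67 (by decide) (by decide)
  have h13 : φ₁ (dec 43) + φ₁ (dec 63) ≤ φ₁ (dec 47) + φ₁ (dec 59) :=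
    subm h.submodular₁ 47 59 (by decide) (by decide)
  have h14 : φ₁ (dec 14) + φ₁ (dec 42) ≤ φ₁ (dec 10) + φ₁ (dec 46) + (32 : ℕ) :=
    subm' cutNat_eq0 h 14 42 (by decide) (by decide) (by decide +kernel)
  have h15 : φ₁ (dec 10) + φ₁ (dec 40) ≤ φ₁ (dec 8) + φ₁ (dec 42) + (32 : ℕ) :=
    subm' cutNat_eq0 h 10 40 (by decide) (by decide) (by decide +kernel)
  have h16 : φ₁ (dec 8) + φ₁ (dec 32) ≤ φ₁ (dec 0) + φ₁ (dec 40) + (0 : ℕ) :=
    subm' cutNat_eq0 h 8 32 (by decide) (by decide) (by decide +kernel)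
  have h17 : φ₁ (dec 111) ≤ φ₁ (dec 127) := top_le h 111
  have h18 : φ₁ (dec 63) ≤ φ₁ (dec 127) := top_le h 63
  have h19 : φ₁ (dec 15) + φ₁ (dec 111) ≤ φ₁ (dec 47) + φ₁ (dec 79) :=
    subm h.submodular₁ 47 79 (by decide) (by decide)
  have h20 : φ₁ (dec 67) + φ₁ (dec 82) ≤ φ₁ (dec 66) + φ₁ (dec 83) + (32 : ℕ) :=
    subm' cutNat_eq0 h 67 82 (by decide) (by decide) (by decide +kernel)
  have h21 : φ₁ (dec 110) + φ₁ (dec 127) ≤ φ₁ (dec 111) + φ₁ (dec 126) :=
    subm h.submodular₁ 111 126 (by decide) (by decide)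
  have h22 : φ₁ (dec 46) + φ₁ (dec 126) ≤ φ₁ (dec 62) + φ₁ (dec 110) :=
    subm h.submodular₁ 62 110 (by decide) (by decide)
  have h23 : φ₁ (dec 1) + φ₁ (dec 4) ≤ φ₁ (dec 0) + φ₁ (dec 5) + (32 : ℕ) :=
    subm' cutNat_eq0 h 1 4 (by decide) (by decide) (by decide +kernel)
  have h24 : φ₁ (dec 11) + φ₁ (dec 42) ≤ φ₁ (dec 10) + φ₁ (dec 43) + (32 : ℕ) :=
    subm' cutNat_eq0 h 11 42 (by decide) (by decide) (by decide +kernel)
  have h25 : ((96 : ℕ) : ℝ) ≤ φ₁ (dec 2) := single cutNat_eq0 h 2 (by decide +kernel)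
  have h26 : ((96 : ℕ) : ℝ) ≤ φ₁ (dec 1) := single cutNat_eq0 h 1 (by decide +kernel)
  have h27 : φ₁ (dec 2) + φ₁ (dec 8) ≤ φ₁ (dec 0) + φ₁ (dec 10) + (32 : ℕ) :=
    subm' cutNat_eq0 h 2 8 (by decide) (by decide) (by decide +kernel)
  have h28 : φ₁ (dec 18) + φ₁ (dec 80) ≤ φ₁ (dec 16) + φ₁ (dec 82) + (32 : ℕ) :=
    subm' cutNat_eq0 h 18 80 (by decide) (by decide) (by decide +kernel)
  have h29 : φ₁ (dec 7) + φ₁ (dec 31) ≤ φ₁ (dec 15) + φ₁ (dec 23) :=
    subm h.submodular₁ 15 23 (by decide) (by decide)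
  have h30 : ((64 : ℕ) : ℝ) ≤ φ₁ (dec 8) := single cutNat_eq0 h 8 (by decide +kernel)
  have h31 : φ₁ (dec 2) + φ₁ (dec 16) ≤ φ₁ (dec 0) + φ₁ (dec 18) + (32 : ℕ) :=
    subm' cutNat_eq0 h 2 16 (by decide) (by decide) (by decide +kernel)
  have h32 : φ₁ (dec 87) + φ₁ (dec 127) ≤ φ₁ (dec 95) + φ₁ (dec 119) :=
    subm h.submodular₁ 95 119 (by decide) (by decide)
  have h33 : φ₁ (dec 59) + φ₁ (dec 127) ≤ φ₁ (dec 63) + φ₁ (dec 123) :=
    subm h.submodular₁ 63 123 (by decide) (by decide)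
  have h34 : φ₁ (dec 126) ≤ φ₁ (dec 127) := top_le h 126
  have h35 : ((96 : ℕ) : ℝ) ≤ φ₁ (dec 32) := single cutNat_eq0 h 32 (by decide +kernel)
  have h36 : ((96 : ℕ) : ℝ) ≤ φ₁ (dec 4) := single cutNat_eq0 h 4 (by decide +kernel)
  have h37 : φ₁ (dec 94) + φ₁ (dec 127) ≤ φ₁ (dec 95) + φ₁ (dec 126) :=
    subm h.submodular₁ 95 126 (by decide) (by decide)
  have h38 : φ₁ (dec 5) + φ₁ (dec 6) ≤ φ₁ (dec 4) + φ₁ (dec 7) + (32 : ℕ) :=
    subm' cutNat_eq0 h 5 6 (by decide) (by decide) (by decide +kernel)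
  have h39 : ((64 : ℕ) : ℝ) ≤ φ₁ (dec 64) := single cutNat_eq0 h 64 (by decide +kernel)
  have h40 : φ₁ (dec 119) ≤ φ₁ (dec 127) := top_le h 119
  have h41 : φ₁ (dec 1) + φ₁ (dec 2) ≤ φ₁ (dec 0) + φ₁ (dec 3) + (32 : ℕ) :=
    subm' cutNat_eq0 h 1 2 (by decide) (by decide) (by decide +kernel)
  have h42 : φ₁ (dec 95) ≤ φ₁ (dec 127) := top_le h 95
  have h43 : φ₁ (dec 83) + φ₁ (dec 119) ≤ φ₁ (dec 87) + φ₁ (dec 115) :=
    subm h.submodular₁ 87 115 (by decide) (by decide)
  have h44 : φ₁ (dec 2) + φ₁ (dec 4) ≤ φ₁ (dec 0) + φ₁ (dec 6) + (32 : ℕ) :=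
    subm' cutNat_eq0 h 2 4 (by decide) (by decide) (by decide +kernel)
  rw [← dec_full]
  push_cast at *
  linarith

set_option maxHeartbeats 4000000 in
lemma lower4 : (199 : ℝ) ∈ lowerBounds (decompositionValues
    (cutFunction (⊤ : SimpleGraph (Fin 7)) (fun e => (wn 4 e : ℝ)))) := by
  rintro t ⟨φ₁, φ₂, h, rfl⟩
  have z : φ₁ (dec 0) = 0 := by rw [dec_zero]; exact h.empty₁
  have h0 : φ₁ (dec 20) + φ₁ (dec 60) ≤ φ₁ (dec 28) + φ₁ (dec 52) :=
    subm h.submodular₁ 28 52 (by decide) (by decide)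
  have h1 : φ₁ (dec 124) + φ₁ (dec 127) ≤ φ₁ (dec 125) + φ₁ (dec 126) :=
    subm h.submodular₁ 125 126 (by decide) (by decide)
  have h2 : φ₁ (dec 66) + φ₁ (dec 80) ≤ φ₁ (dec 64) + φ₁ (dec 82) + (32 : ℕ) :=
    subm' cutNat_eq4 h 66 80 (by decide) (by decide) (by decide +kernel)
  have h3 : φ₁ (dec 58) + φ₁ (dec 114) ≤ φ₁ (dec 50) + φ₁ (dec 122) + (0 : ℕ) :=
    subm' cutNat_eq4 h 58 114 (by decide) (by decide) (by decide +kernel)
  have h4 : φ₁ (dec 63) ≤ φ₁ (dec 127) := top_le h 63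
  have h5 : ((68 : ℕ) : ℝ) ≤ φ₁ (dec 8) := single cutNat_eq4 h 8 (by decide +kernel)
  have h6 : ((96 : ℕ) : ℝ) ≤ φ₁ (dec 2) := single cutNat_eq4 h 2 (by decide +kernel)
  have h7 : φ₁ (dec 95) ≤ φ₁ (dec 127) := top_le h 95
  have h8 : φ₁ (dec 50) + φ₁ (dec 52) ≤ φ₁ (dec 48) + φ₁ (dec 54) + (32 : ℕ) :=
    subm' cutNat_eq4 h 50 52 (by decide) (by decide) (by decide +kernel)
  have h9 : φ₁ (dec 93) + φ₁ (dec 127) ≤ φ₁ (dec 95) + φ₁ (dec 125) :=
    subm h.submodular₁ 95 125 (by decide) (by decide)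
  have h10 : ((96 : ℕ) : ℝ) ≤ φ₁ (dec 4) := single cutNat_eq4 h 4 (by decide +kernel)
  have h11 : φ₁ (dec 111) ≤ φ₁ (dec 127) := top_le h 111
  have h12 : φ₁ (dec 45) + φ₁ (dec 63) ≤ φ₁ (dec 47) + φ₁ (dec 61) :=
    subm h.submodular₁ 47 61 (by decide) (by decide)
  have h13 : φ₁ (dec 42) + φ₁ (dec 62) ≤ φ₁ (dec 46) + φ₁ (dec 58) :=
    subm h.submodular₁ 46 58 (by decide) (by decide)
  have h14 : φ₁ (dec 123) ≤ φ₁ (dec 127) := top_le h 123
  have h15 : φ₁ (dec 24) + φ₁ (dec 80) ≤ φ₁ (dec 16) + φ₁ (dec 88) + (0 : ℕ) :=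
    subm' cutNat_eq4 h 24 80 (by decide) (by decide) (by decide +kernel)
  have h16 : φ₁ (dec 126) ≤ φ₁ (dec 127) := top_le h 126
  have h17 : φ₁ (dec 40) + φ₁ (dec 48) ≤ φ₁ (dec 32) + φ₁ (dec 56) + (32 : ℕ) :=
    subm' cutNat_eq4 h 40 48 (by decide) (by decide) (by decide +kernel)
  have h18 : φ₁ (dec 94) + φ₁ (dec 127) ≤ φ₁ (dec 95) + φ₁ (dec 126) :=
    subm h.submodular₁ 95 126 (by decide) (by decide)
  have h19 : φ₁ (dec 56) + φ₁ (dec 88) ≤ φ₁ (dec 24) + φ₁ (dec 120) + (32 : ℕ) :=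
    subm' cutNat_eq4 h 56 88 (by decide) (by decide) (by decide +kernel)
  have h20 : ((100 : ℕ) : ℝ) ≤ φ₁ (dec 32) := single cutNat_eq4 h 32 (by decide +kernel)
  have h21 : φ₁ (dec 55) + φ₁ (dec 127) ≤ φ₁ (dec 63) + φ₁ (dec 119) :=
    subm h.submodular₁ 63 119 (by decide) (by decide)
  have h22 : φ₁ (dec 10) + φ₁ (dec 40) ≤ φ₁ (dec 8) + φ₁ (dec 42) + (32 : ℕ) :=
    subm' cutNat_eq4 h 10 40 (by decide) (by decide) (by decide +kernel)
  have h23 : ((96 : ℕ) : ℝ) ≤ φ₁ (dec 16) := single cutNat_eq4 h 16 (by decide +kernel)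
  have h24 : φ₁ (dec 2) + φ₁ (dec 64) ≤ φ₁ (dec 0) + φ₁ (dec 66) + (32 : ℕ) :=
    subm' cutNat_eq4 h 2 64 (by decide) (by decide) (by decide +kernel)
  have h25 : φ₁ (dec 47) + φ₁ (dec 127) ≤ φ₁ (dec 63) + φ₁ (dec 111) :=
    subm h.submodular₁ 63 111 (by decide) (by decide)
  have h26 : φ₁ (dec 54) + φ₁ (dec 63) ≤ φ₁ (dec 55) + φ₁ (dec 62) :=
    subm h.submodular₁ 55 62 (by decide) (by decide)
  have h27 : φ₁ (dec 8) + φ₁ (dec 32) ≤ φ₁ (dec 0) + φ₁ (dec 40) + (8 : ℕ) :=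
    subm' cutNat_eq4 h 8 32 (by decide) (by decide) (by decide +kernel)
  have h28 : φ₁ (dec 119) ≤ φ₁ (dec 127) := top_le h 119
  have h29 : φ₁ (dec 46) + φ₁ (dec 111) ≤ φ₁ (dec 47) + φ₁ (dec 110) :=
    subm h.submodular₁ 47 110 (by decide) (by decide)
  have h30 : φ₁ (dec 4) + φ₁ (dec 8) ≤ φ₁ (dec 0) + φ₁ (dec 12) + (32 : ℕ) :=
    subm' cutNat_eq4 h 4 8 (by decide) (by decide) (by decide +kernel)
  have h31 : φ₁ (dec 12) + φ₁ (dec 40) ≤ φ₁ (dec 8) + φ₁ (dec 44) + (32 : ℕ) :=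
    subm' cutNat_eq4 h 12 40 (by decide) (by decide) (by decide +kernel)
  have h32 : φ₁ (dec 16) + φ₁ (dec 64) ≤ φ₁ (dec 0) + φ₁ (dec 80) + (0 : ℕ) :=
    subm' cutNat_eq4 h 16 64 (by decide) (by decide) (by decide +kernel)
  have h33 : φ₁ (dec 110) + φ₁ (dec 127) ≤ φ₁ (dec 111) + φ₁ (dec 126) :=
    subm h.submodular₁ 111 126 (by decide) (by decide)
  have h34 : φ₁ (dec 120) + φ₁ (dec 126) ≤ φ₁ (dec 122) + φ₁ (dec 124) :=
    subm h.submodular₁ 122 124 (by decide) (by decide)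
  have h35 : φ₁ (dec 4) + φ₁ (dec 16) ≤ φ₁ (dec 0) + φ₁ (dec 20) + (32 : ℕ) :=
    subm' cutNat_eq4 h 4 16 (by decide) (by decide) (by decide +kernel)
  have h36 : φ₁ (dec 122) + φ₁ (dec 127) ≤ φ₁ (dec 123) + φ₁ (dec 126) :=
    subm h.submodular₁ 123 126 (by decide) (by decide)
  have h37 : φ₁ (dec 82) + φ₁ (dec 122) ≤ φ₁ (dec 90) + φ₁ (dec 114) :=
    subm h.submodular₁ 90 114 (by decide) (by decide)
  have h38 : φ₁ (dec 28) + φ₁ (dec 88) ≤ φ₁ (dec 24) + φ₁ (dec 92) + (32 : ℕ) :=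
    subm' cutNat_eq4 h 28 88 (by decide) (by decide) (by decide +kernel)
  have h39 : φ₁ (dec 125) ≤ φ₁ (dec 127) := top_le h 125
  have h40 : φ₁ (dec 92) + φ₁ (dec 95) ≤ φ₁ (dec 93) + φ₁ (dec 94) :=
    subm h.submodular₁ 93 94 (by decide) (by decide)
  have h41 : φ₁ (dec 2) + φ₁ (dec 8) ≤ φ₁ (dec 0) + φ₁ (dec 10) + (32 : ℕ) :=
    subm' cutNat_eq4 h 2 8 (by decide) (by decide) (by decide +kernel)
  have h42 : φ₁ (dec 44) + φ₁ (dec 61) ≤ φ₁ (dec 45) + φ₁ (dec 60) :=
    subm h.submodular₁ 45 60 (by decide) (by decide)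
  have h43 : φ₁ (dec 90) + φ₁ (dec 126) ≤ φ₁ (dec 94) + φ₁ (dec 122) :=
    subm h.submodular₁ 94 122 (by decide) (by decide)
  have h44 : ((64 : ℕ) : ℝ) ≤ φ₁ (dec 64) := single cutNat_eq4 h 64 (by decide +kernel)
  rw [← dec_full]
  push_cast at *
  linarith

/-- There are a graph on seven vertices and edge weights `0 ≤ w' ≤ w` such that
`‖d_{G,w}‖₊ < ‖d_{G,w'}‖₊`. -/
theorem result : ∃ (G : SimpleGraph (Fin 7)) (_ : DecidableRel G.Adj)
    (w w' : Sym2 (Fin 7) → ℝ) (a b : ℝ),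
    (∀ e ∈ G.edgeSet, 0 ≤ w' e ∧ w' e ≤ w e) ∧
      IsLeast (decompositionValues (cutFunction G w)) a ∧
      IsLeast (decompositionValues (cutFunction G w')) b ∧ a < b := by
  refine ⟨⊤, inferInstance, fun e => (wn 4 e : ℝ), fun e => (wn 0 e : ℝ), 199, 200, ?_, ⟨?_, ?_⟩,
    ⟨?_, ?_⟩, by norm_num⟩
  · intro e _
    refine ⟨by positivity, ?_⟩
    have h : ∀ e : Sym2 (Fin 7), wn 0 e ≤ wn 4 e := by decide +kernel
    exact Nat.cast_le.mpr (h e)
  · have := exists_decomposition 4 C4 F4 199 cutNat_eq4 certificate4 (by decide +kernel)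
      (by decide +kernel) (by decide +kernel)
    exact_mod_cast this
  · exact lower4
  · have := exists_decomposition 0 C0 F0 200 cutNat_eq0 certificate0 (by decide +kernel)
      (by decide +kernel) (by decide +kernel)
    exact_mod_cast this
  · exact lower0

end Pool.Agent.Results.MP_37da45_co.Counterexample
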